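import Pool.Agent.H240.GU.Def
import Pool.Agent.H240.CG.Bfun

/-!
# Task GU-10 (helper539): existence of the directions of perturbation
-/

set_option autoImplicit false

open Set Filter Topology MeasureTheory
open scoped ContDiff Real

namespace Pool.Agent.H539.GU

/-- the derivatives of a smooth function with compact support are bounded -/
lemma bd_all {η : ℝ → ℝ} (hη : ContDiff ℝ ∞ η) (hs : HasCompactSupport η) (j : ℕ) :
    ∃ K : ℝ, ∀ t, |iteratedDeriv j η t| ≤ K := by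
  have h1 : HasCompactSupport (iteratedDeriv j η) := by
    induction j with
    | zero =>
      rw [iteratedDeriv_zero]
      exact hs
    | succ j ih =>
      rw [iteratedDeriv_succ]
      exact ih.deriv
  have h2 : Continuous (iteratedDeriv j η) := hη.continuous_iteratedDeriv j (by exact_mod_cast le_top)
  obtain ⟨K, hK⟩ := h2.bounded_above_of_compact_support h1
  exact ⟨K, fun t => by rw [← Real.norm_eq_abs]; exact hK t⟩

/-- cutting off -/
lemma cut {δ : ℝ} (hδ : 0 < δ) {b : ℝ → ℝ} (hb : ContDiff ℝ ∞ b) :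
    ∃ η : ℝ → ℝ, ContDiff ℝ ∞ η ∧ (∀ t, δ / 2 ≤ |t| → η t = 0) ∧
      (∀ t, |t| ≤ δ / 4 → η t = b t - 1 ∧ deriv η t = deriv b t ∧
        iteratedDeriv 2 η t = iteratedDeriv 2 b t) ∧
      (∀ t, 0 < b t → -1 < η t) ∧ ∀ j, ∃ K : ℝ, ∀ t, |iteratedDeriv j η t| ≤ K := by
  let χ : ContDiffBump (0 : ℝ) := ⟨δ / 4 + δ / 16, δ / 2 - δ / 16, by positivity, by linarith⟩
  have hχ : ContDiff ℝ ∞ χ := χ.contDiff
  have hout : χ.rOut = δ / 2 - δ / 16 := rfl
  have hin : χ.rIn = δ / 4 + δ / 16 := rfl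
  have hη : ContDiff ℝ ∞ (fun t => χ t * (b t - 1)) := hχ.mul (hb.sub contDiff_const)
  have hnear : ∀ t : ℝ, |t| ≤ δ / 4 → (fun t => χ t * (b t - 1)) =ᶠ[𝓝 t] fun t => b t - 1 := by
    intro t ht
    have h1 : Metric.ball (0 : ℝ) (δ / 4 + δ / 16) ∈ 𝓝 t := by
      apply Metric.isOpen_ball.mem_nhds
      rw [Metric.mem_ball, Real.dist_eq, sub_zero]
      linarith
    filter_upwards [h1] with x hx
    rw [χ.one_of_mem_closedBall (by rw [hin]; exact Metric.ball_subset_closedBall hx), one_mul]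
  refine ⟨fun t => χ t * (b t - 1), hη, ?_, ?_, ?_, ?_⟩
  · intro t ht
    have h1 : χ t = 0 := by
      apply χ.zero_of_le_dist
      rw [hout, Real.dist_eq, sub_zero]
      linarith
    change χ t * (b t - 1) = 0
    rw [h1, zero_mul]
  · intro t ht
    have h1 := hnear t ht
    have hb1 : Differentiable ℝ b := hb.differentiable (by simp)
    have hd : deriv (fun t => b t - 1) = deriv b := by
      funext x
      rw [deriv_sub_const]
    refine ⟨h1.eq_of_nhds, ?_, ?_⟩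
    · rw [h1.deriv_eq, hd]
    · have h2 := h1.iteratedDeriv_eq 2
      rw [h2, iteratedDeriv_succ, iteratedDeriv_one, hd, iteratedDeriv_succ, iteratedDeriv_one]
  · intro t ht
    have h0 : 0 ≤ χ t := χ.nonneg
    have h1 : χ t ≤ 1 := χ.le_one
    change -1 < χ t * (b t - 1)
    rcases h0.eq_or_lt with h2 | h2
    · rw [← h2, zero_mul]
      norm_num
    · have h3 : 0 < χ t * b t := mul_pos h2 ht
      nlinarith
  · intro j
    refine bd_all hη ?_ j
    exact χ.hasCompactSupport.mul_right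

/-- the convex function is positive outside of the interval -/
lemma bpos {B : ℝ → ℝ} (hB : ContDiff ℝ ∞ B) {r : ℝ} (hr : 0 < r) (h0 : ∀ x, |x| ≤ r → B x = 0)
    (h1 : ∀ x, 0 ≤ deriv (deriv B) x) (h2 : ∀ x, deriv (deriv B) x = 0 → |x| ≤ r) :
    (∀ x, r < |x| → 0 < B x) ∧ ∀ x, r < |x| → 0 < deriv (deriv B) x := by
  have h3 : ∀ x, r < |x| → 0 < deriv (deriv B) x := by
    intro x hx
    refine lt_of_le_of_ne (h1 x) fun h => ?_
    exact absurd (h2 x h.symm) (not_le.mpr hx)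
  refine ⟨?_, h3⟩
  have hB1 : ContDiff ℝ ∞ (deriv B) := (contDiff_infty_iff_deriv.1 hB).2
  have hd0 : ∀ x, |x| ≤ r → deriv B x = 0 := by
    have h4 : ∀ x, |x| < r → deriv B x = 0 := by
      intro x hx
      have h5 : B =ᶠ[𝓝 x] fun _ => 0 := by
        have h6 : {y : ℝ | |y| < r} ∈ 𝓝 x := (isOpen_lt continuous_abs continuous_const).mem_nhds hx
        filter_upwards [h6] with y hy
        exact h0 y (le_of_lt hy)
      rw [h5.deriv_eq, deriv_const]
    intro x hx
    have h7 : IsClosed {y : ℝ | deriv B y = 0} := isClosed_eq hB1.continuous continuous_const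
    have h8 : x ∈ closure {y : ℝ | |y| < r} := by
      have h9 : closure (Metric.ball (0 : ℝ) r) = Metric.closedBall 0 r := closure_ball 0 hr.ne'
      have h10 : {y : ℝ | |y| < r} = Metric.ball (0 : ℝ) r := by
        ext y
        rw [Metric.mem_ball, Real.dist_eq, sub_zero]
        rfl
      rw [h10, h9, Metric.mem_closedBall, Real.dist_eq, sub_zero]
      exact hx
    exact h7.closure_subset_iff.2 (fun y hy => h4 y hy) h8
  -- strict monotonicity of the derivative to the right and to the left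
  have hm1 : StrictMonoOn (deriv B) (Ici r) := by
    apply strictMonoOn_of_deriv_pos (convex_Ici r) hB1.continuous.continuousOn
    intro x hx
    rw [interior_Ici] at hx
    exact h3 x (lt_of_lt_of_le hx (le_abs_self x))
  have hm2 : StrictMonoOn (deriv B) (Iic (-r)) := by
    apply strictMonoOn_of_deriv_pos (convex_Iic (-r)) hB1.continuous.continuousOn
    intro x hx
    rw [interior_Iic] at hx
    have hx' : x < -r := hx
    exact h3 x (lt_of_lt_of_le (by linarith : r < -x) (neg_le_abs x))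
  have hM1 : StrictMonoOn B (Ici r) := by
    apply strictMonoOn_of_deriv_pos (convex_Ici r) hB.continuous.continuousOn
    intro x hx
    rw [interior_Ici] at hx
    have h5 := hm1 (mem_Ici.2 le_rfl) (mem_Ici.2 (le_of_lt hx)) hx
    rw [hd0 r (by rw [abs_of_pos hr])] at h5
    exact h5
  have hM2 : StrictAntiOn B (Iic (-r)) := by
    apply strictAntiOn_of_deriv_neg (convex_Iic (-r)) hB.continuous.continuousOn
    intro x hx
    rw [interior_Iic] at hx
    have h5 := hm2 (mem_Iic.2 (le_of_lt hx)) (mem_Iic.2 le_rfl) hx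
    rw [hd0 (-r) (by rw [abs_neg, abs_of_pos hr])] at h5
    exact h5
  intro x hx
  rcases lt_abs.1 hx with h5 | h5
  · have h6 := hM1 (mem_Ici.2 le_rfl) (mem_Ici.2 h5.le) h5
    rw [h0 r (by rw [abs_of_pos hr])] at h6
    exact h6
  · have h5' : x < -r := by linarith
    have h6 := hM2 (mem_Iic.2 h5'.le) (mem_Iic.2 le_rfl) h5'
    rw [h0 (-r) (by rw [abs_neg, abs_of_pos hr])] at h6
    exact h6

lemma id_eq (f : ℝ → ℝ) : iteratedDeriv 2 f = deriv (deriv f) := by
  rw [iteratedDeriv_succ, iteratedDeriv_one]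

/-- the two parts of the statement -/
theorem main :
    (∀ δ ρ : ℝ, 0 < ρ → ρ < δ / 4 → ∃ η : ℝ → ℝ, ContDiff ℝ ∞ η ∧ (∀ t, δ / 2 ≤ |t| → η t = 0) ∧
      (∀ t, |t| ≤ ρ → η t = -1) ∧ (∀ t, ρ < |t| → -1 < η t) ∧
      (∀ t, ρ < |t| → |t| ≤ δ / 4 → 0 < iteratedDeriv 2 η t) ∧
      ∀ j, ∃ K : ℝ, ∀ t, |iteratedDeriv j η t| ≤ K) ∧
    ∀ δ : ℝ, 0 < δ → ∃ η : ℝ → ℝ, ContDiff ℝ ∞ η ∧ (∀ t, δ / 2 ≤ |t| → η t = 0) ∧ η 0 = -1 ∧
      deriv η 0 = 0 ∧ (∀ t, |t| ≤ δ / 4 → 0 < iteratedDeriv 2 η t) ∧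
      ∀ j, ∃ K : ℝ, ∀ t, |iteratedDeriv j η t| ≤ K := by
  constructor
  · intro δ ρ hρ hρδ
    have hδ : 0 < δ := by linarith
    obtain ⟨B, D, hB, -, h0, h1, h2, -⟩ := Pool.Agent.H240.CG.bfun_ex 0 ρ 1 hρ
    simp only [sub_zero] at h0 h2
    obtain ⟨hp, hp2⟩ := bpos hB hρ h0 h1 h2
    obtain ⟨η, a1, a2, a3, a4, a5⟩ := cut hδ hB
    refine ⟨η, a1, a2, fun t ht => ?_, fun t ht => a4 t (hp t ht), fun t ht ht2 => ?_, a5⟩
    · rw [(a3 t (by linarith)).1, h0 t ht]
      norm_num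
    · rw [(a3 t ht2).2.2, id_eq]
      exact hp2 t ht
  · intro δ hδ
    have hb : ContDiff ℝ ∞ (fun t : ℝ => t ^ 2) := contDiff_id.pow 2
    obtain ⟨η, a1, a2, a3, a4, a5⟩ := cut hδ hb
    have hd : deriv (fun t : ℝ => t ^ 2) = fun t => 2 * t := by
      funext t
      rw [deriv_fun_pow (differentiableAt_id)]
      simp
    refine ⟨η, a1, a2, ?_, ?_, fun t ht => ?_, a5⟩
    · rw [(a3 0 (by rw [abs_zero]; positivity)).1]
      norm_num
    · rw [(a3 0 (by rw [abs_zero]; positivity)).2.1, hd]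
      norm_num
    · rw [(a3 t ht).2.2, id_eq, hd]
      rw [deriv_const_mul_field, deriv_id'']
      norm_num


/-- **GU-10.** -/
theorem stEt : Pool.Agent.H240.GU.StEt := by
  refine ⟨fun δ ρ hρ hρδ => ?_, main.2⟩
  obtain ⟨η, a1, a2, a3, a4, a5, a6⟩ := main.1 δ ρ hρ hρδ
  exact ⟨η, a1, a2, a3, a4, a5, a6⟩

end Pool.Agent.H539.GU
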